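import Pool.Agent.Run7.h115.HK.Iface

/-!
# Piece K1 of project HK (helper115): the heat kernel from the semigroup
-/

set_option autoImplicit false

open MeasureTheory Filter Topology Set
open scoped ENNReal
open Pool.Agent.N288.MM
open Run7.h115.HK

namespace Run7.h662.HK

theorem t_K1 : S_K1 := by
  intro w hw V _ J hJ P P' v hS e he hev
  -- functionals
  let l : ℝ × ℝ → (H2 w →L[ℂ] ℂ) := fun q => (e q.2).comp (v q.1)
  have hl : ContinuousOn l {q | 0 < q.1} := by
    have h1 : ContinuousOn (fun q : ℝ × ℝ => e q.2) {q | 0 < q.1} :=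
      (he.comp continuous_snd).continuousOn
    have h2 : ContinuousOn (fun q : ℝ × ℝ => v q.1) {q | 0 < q.1} :=
      hS.cont.comp continuous_fst.continuousOn (fun q hq => hq)
    exact h1.clm_comp h2
  let k : ℝ × ℝ → H2 w := fun q => (InnerProductSpace.toDual ℂ (H2 w)).symm (l q)
  have hk : ContinuousOn k {q | 0 < q.1} :=
    (InnerProductSpace.toDual ℂ (H2 w)).symm.continuous.comp_continuousOn hl
  have hki : ∀ q f, inner ℂ (k q) f = e q.2 (v q.1 f) := fun q f =>
    InnerProductSpace.toDual_symm_apply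
  -- a.e. identity
  have hac : mu w ≪ (volume : Measure ℝ) := withDensity_absolutelyContinuous _ _
  have hae : ∀ s, 0 < s → ∀ x, ∀ᵐ y ∂(mu w),
      inner ℂ (k (s, y)) (k (s, x)) = (P s (k (s, x)) : ℝ → ℂ) y := by
    intro s hs x
    have h1 := hac.ae_le (hev (v s (k (s, x))))
    have h2 : ((v s (k (s, x)) : V) : HH w).fst = P s (k (s, x)) := by
      rw [← hJ, hS.fac s hs]
    filter_upwards [h1] with y hy
    rw [hki, hy, h2]
  have hre : ∀ s, 0 < s → ∀ x, ∀ᵐ y ∂(mu w),
      (inner ℂ (k (s, x)) (k (s, y))).re = ((P s (k (s, x)) : ℝ → ℂ) y).re := by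
    intro s hs x
    filter_upwards [hae s hs x] with y hy
    rw [← hy, ← inner_conj_symm, Complex.conj_re]
  refine ⟨fun t x y => (inner ℂ (k (t / 2, x)) (k (t / 2, y))).re, ?_, ?_, ?_⟩
  · have c1 : ContinuousOn (fun z : ℝ × ℝ × ℝ => k (z.1 / 2, z.2.1)) {z | 0 < z.1} :=
      hk.comp (by fun_prop) (fun z hz => by
        have h0 : 0 < z.1 := hz
        change 0 < z.1 / 2
        linarith)
    have c2 : ContinuousOn (fun z : ℝ × ℝ × ℝ => k (z.1 / 2, z.2.2)) {z | 0 < z.1} :=
      hk.comp (by fun_prop) (fun z hz => by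
        have h0 : 0 < z.1 := hz
        change 0 < z.1 / 2
        linarith)
    exact Complex.continuous_re.comp_continuousOn (c1.inner c2)
  · intro t ht x
    have hm : MemLp (fun y => ((P (t / 2) (k (t / 2, x)) : ℝ → ℂ) y).re) 2 (mu w) :=
      (Lp.memLp (P (t / 2) (k (t / 2, x)))).re
    refine (memLp_congr_ae ?_).1 hm
    filter_upwards [hre (t / 2) (half_pos ht) x] with y hy
    exact hy.symm
  · intro t ht f hf x
    have hs : 0 < t / 2 := half_pos ht
    set g : H2 w := P (t / 2) (k (t / 2, x)) with hg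
    have e1 : ∫ y, (inner ℂ (k (t / 2, x)) (k (t / 2, y))).re * f y ∂(mu w) =
        ∫ y, RCLike.re (inner ℂ ((g : ℝ → ℂ) y) ((toC hf : ℝ → ℂ) y)) ∂(mu w) := by
      refine integral_congr_ae ?_
      filter_upwards [hre (t / 2) hs x, (hf.ofReal (K := ℂ)).coeFn_toLp] with y h1 h2
      have h3 : (toC hf : ℝ → ℂ) y = (f y : ℂ) := h2
      rw [h1, h3]
      simp [RCLike.inner_apply, mul_comm, hg]
    rw [e1, integral_re (L2.integrable_inner (𝕜 := ℂ) g (toC hf)), ← L2.inner_def (𝕜 := ℂ), hg,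
      hS.sym _ hs, hki]
    have h4 := hS.add (t / 2) (t / 2) hs hs (toC hf)
    rw [add_halves] at h4
    simp only [h4]
    rfl

end Run7.h662.HK
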